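import Pool.Agent.W759.TR.Defs

namespace Pool.Agent.W94.TR

open MeasureTheory ProbabilityTheory Set Filter
open scoped ENNReal Topology
open Pool.Agent.W759.FD (house rs)
open Pool.Agent.W759.TR

/-- The box event for a family of positions. -/
def ev {I E : Type} (F : E → I) (j : E → ℕ) (x : E → Bool) (D : Finset E) :
    Set (I → ℕ → Bool) := {H | ∀ e ∈ D, H (F e) (j e) = x e}

/-- One side of the box. -/
def sd {I E : Type} (F : E → I) (j : E → ℕ) (x : E → Bool) (D : Finset E) (i : I) :
    Set (ℕ → Bool) := {h | ∀ e ∈ D, F e = i → h (j e) = x e}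

theorem meas_sd {I E : Type} (F : E → I) (j : E → ℕ) (x : E → Bool) (D : Finset E) (i : I) :
    MeasurableSet (sd F j x D i) := by
  have : sd F j x D i = ⋂ e ∈ D, ⋂ (_ : F e = i), {h : ℕ → Bool | h (j e) = x e} := by
    ext h; simp [sd]
  rw [this]
  refine Finset.measurableSet_biInter _ fun e _ => MeasurableSet.iInter fun _ => ?_
  exact measurableSet_eq_fun (measurable_pi_apply (j e)) measurable_const

theorem ev_prob {I E : Type} (μ : I → Measure (ℕ → Bool)) [∀ i, IsProbabilityMeasure (μ i)]
    (F : E → I) (j : E → ℕ) (x : E → Bool) (D : Finset E) (s : Finset I)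
    (hs : ∀ e ∈ D, F e ∈ s) :
    Measure.infinitePi μ (ev F j x D) = ∏ i ∈ s, μ i (sd F j x D i) := by
  have h1 : ev F j x D = Set.pi (s : Set I) (fun i => sd F j x D i) := by
    ext H
    simp only [ev, sd, Set.mem_ofPred_eq, Set.mem_pi, Finset.mem_coe]
    constructor
    · intro h i _ e he hi
      subst hi
      exact h e he
    · intro h e he
      exact h (F e) (hs e he) e he rfl
  rw [h1]
  exact Measure.infinitePi_pi μ (fun i _ => meas_sd F j x D i)

theorem key (H0h : H0) {I E : Type} (sc : I → ℕ) (F1 F2 : E → I)
    (j : E → ℕ) (hsc : ∀ e, sc (F1 e) = sc (F2 e)) (h12 : ∀ e e', F2 e = F2 e' → F1 e = F1 e')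
    (hgap : ∀ e e', F1 e = F1 e' → F2 e ≠ F2 e' → 1 < |(j e : ℤ) - (j e' : ℤ)|)
    (x : E → Bool) : ∀ (n : ℕ) (D : Finset E), D.card = n →
    Measure.infinitePi (fun i : I => house (sc i + 1)) (ev F1 j x D) =
    Measure.infinitePi (fun i : I => house (sc i + 1)) (ev F2 j x D) := by
  classical
  have hp : ∀ i : I, IsProbabilityMeasure (house (sc i + 1)) := fun i => H0h.1 _ (Nat.succ_pos _)
  intro n
  induction n using Nat.strong_induction_on with
  | _ n ih =>
    intro D hD
    rcases D.eq_empty_or_nonempty with rfl | ⟨e0, he0⟩
    · simp [ev]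
    · set K := D.filter (fun e => F2 e = F2 e0) with hK
      set D' := D.filter (fun e => ¬ F2 e = F2 e0) with hD'
      have hlt : D'.card < n := by
        rw [← hD]
        refine Finset.card_lt_card ⟨Finset.filter_subset _ _, fun hsub => ?_⟩
        have := hsub he0
        simp [hD'] at this
      have hI := ih D'.card hlt D' rfl
      -- second process
      have hmem : ∀ e, e ∈ D ↔ (e ∈ K ∨ e ∈ D') := by
        intro e
        simp only [hK, hD', Finset.mem_filter]
        tauto
      have key2 : Measure.infinitePi (fun i : I => house (sc i + 1)) (ev F2 j x D) =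
          house (sc (F2 e0) + 1) {h | ∀ e ∈ K, h (j e) = x e} *
          Measure.infinitePi (fun i : I => house (sc i + 1)) (ev F2 j x D') := by
        have hs : ∀ e ∈ D, F2 e ∈ D.image F2 := fun e he => Finset.mem_image_of_mem _ he
        have hs' : ∀ e ∈ D', F2 e ∈ D.image F2 := fun e he =>
          hs e (Finset.filter_subset _ _ he)
        rw [ev_prob _ F2 j x D _ hs, ev_prob _ F2 j x D' _ hs']
        rw [← Finset.mul_prod_erase _ _ (hs e0 he0), ← Finset.mul_prod_erase _
          (fun i => house (sc i + 1) (sd F2 j x D' i)) (hs e0 he0)]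
        have e1 : sd F2 j x D (F2 e0) = {h | ∀ e ∈ K, h (j e) = x e} := by
          ext h
          simp only [sd, hK, Set.mem_ofPred_eq, Finset.mem_filter, and_imp]
        have e2 : sd F2 j x D' (F2 e0) = univ := by
          ext h
          simp only [sd, hD', Set.mem_ofPred_eq, Finset.mem_filter, and_imp, Set.mem_univ, iff_true]
          intro e _ hn hy
          exact absurd hy hn
        have e3 : ∏ i ∈ (D.image F2).erase (F2 e0), house (sc i + 1) (sd F2 j x D i) =
            ∏ i ∈ (D.image F2).erase (F2 e0), house (sc i + 1) (sd F2 j x D' i) := by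
          refine Finset.prod_congr rfl fun i hi => ?_
          have hne : i ≠ F2 e0 := Finset.ne_of_mem_erase hi
          congr 1
          ext h
          simp only [sd, hD', Set.mem_ofPred_eq, Finset.mem_filter, and_imp]
          constructor
          · intro H e he _ hi
            exact H e he hi
          · intro H e he hi
            exact H e he (fun hc => hne (hi ▸ hc)) hi
        rw [e1, e2, e3, measure_univ, one_mul]
      have key1 : Measure.infinitePi (fun i : I => house (sc i + 1)) (ev F1 j x D) =
          house (sc (F1 e0) + 1) {h | ∀ e ∈ K, h (j e) = x e} *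
          Measure.infinitePi (fun i : I => house (sc i + 1)) (ev F1 j x D') := by
        have hs : ∀ e ∈ D, F1 e ∈ D.image F1 := fun e he => Finset.mem_image_of_mem _ he
        have hs' : ∀ e ∈ D', F1 e ∈ D.image F1 := fun e he =>
          hs e (Finset.filter_subset _ _ he)
        rw [ev_prob _ F1 j x D _ hs, ev_prob _ F1 j x D' _ hs']
        rw [← Finset.mul_prod_erase _ _ (hs e0 he0), ← Finset.mul_prod_erase _
          (fun i => house (sc i + 1) (sd F1 j x D' i)) (hs e0 he0)]
        have hKF : ∀ e ∈ K, F1 e = F1 e0 := fun e he =>
          h12 e e0 (by simpa using (Finset.mem_filter.mp he).2)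
        have e1 : house (sc (F1 e0) + 1) (sd F1 j x D (F1 e0)) =
            house (sc (F1 e0) + 1) {h | ∀ e ∈ K, h (j e) = x e} *
            house (sc (F1 e0) + 1) (sd F1 j x D' (F1 e0)) := by
          set A : Set ℕ := {a | ∃ e ∈ K, j e = a} with hA
          set B : Set ℕ := {b | ∃ e ∈ D', F1 e = F1 e0 ∧ j e = b} with hB
          have hAB : ∀ a ∈ A, ∀ b ∈ B, 1 < |(a : ℤ) - (b : ℤ)| := by
            rintro a ⟨e, he, rfl⟩ b ⟨e', he', hF, rfl⟩
            refine hgap e e' (by rw [hKF e he, hF]) ?_
            rw [(Finset.mem_filter.mp he).2]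
            exact fun hc => (Finset.mem_filter.mp he').2 hc.symm
          have hind := H0h.2.2.1 (sc (F1 e0) + 1) (Nat.succ_pos _) A B hAB
          have hA1 : {h : ℕ → Bool | ∀ e ∈ K, h (j e) = x e} = rs (T := Bool) A ⁻¹'
              {y : A → Bool | ∀ e ∈ K, ∀ h : j e ∈ A, y ⟨j e, h⟩ = x e} := by
            ext h
            simp only [Set.mem_ofPred_eq, Set.mem_preimage, rs]
            constructor
            · intro H e he _
              exact H e he
            · intro H e he
              exact H e he ⟨e, he, rfl⟩
          have hB1 : sd F1 j x D' (F1 e0) = rs (T := Bool) B ⁻¹'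
              {y : B → Bool | ∀ e ∈ D', F1 e = F1 e0 → ∀ h : j e ∈ B, y ⟨j e, h⟩ = x e} := by
            ext h
            simp only [sd, Set.mem_ofPred_eq, Set.mem_preimage, rs]
            constructor
            · intro H e he hi _
              exact H e he hi
            · intro H e he hi
              exact H e he hi ⟨e, he, hi, rfl⟩
          have hmA : MeasurableSet {y : A → Bool | ∀ e ∈ K, ∀ h : j e ∈ A, y ⟨j e, h⟩ = x e} := by
            have : {y : A → Bool | ∀ e ∈ K, ∀ h : j e ∈ A, y ⟨j e, h⟩ = x e} =
                ⋂ e ∈ K, ⋂ (h : j e ∈ A), {y : A → Bool | y ⟨j e, h⟩ = x e} := by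
              ext y; simp
            rw [this]
            refine Finset.measurableSet_biInter _ fun e _ => MeasurableSet.iInter fun h => ?_
            exact measurableSet_eq_fun (measurable_pi_apply (⟨j e, h⟩ : A)) measurable_const
          have hmB : MeasurableSet {y : B → Bool | ∀ e ∈ D', F1 e = F1 e0 →
              ∀ h : j e ∈ B, y ⟨j e, h⟩ = x e} := by
            have : {y : B → Bool | ∀ e ∈ D', F1 e = F1 e0 → ∀ h : j e ∈ B, y ⟨j e, h⟩ = x e} =
                ⋂ e ∈ D', ⋂ (_ : F1 e = F1 e0), ⋂ (h : j e ∈ B),
                  {y : B → Bool | y ⟨j e, h⟩ = x e} := by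
              ext y; simp
            rw [this]
            refine Finset.measurableSet_biInter _ fun e _ => MeasurableSet.iInter fun _ =>
              MeasurableSet.iInter fun h => ?_
            exact measurableSet_eq_fun (measurable_pi_apply (⟨j e, h⟩ : B)) measurable_const
          have hsplit : sd F1 j x D (F1 e0) =
              {h : ℕ → Bool | ∀ e ∈ K, h (j e) = x e} ∩ sd F1 j x D' (F1 e0) := by
            ext h
            simp only [sd, Set.mem_ofPred_eq, Set.mem_inter_iff]
            constructor
            · intro H
              exact ⟨fun e he => H e ((hmem e).mpr (Or.inl he)) (hKF e he),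
                fun e he hi => H e ((hmem e).mpr (Or.inr he)) hi⟩
            · rintro ⟨H1, H2⟩ e he hi
              rcases (hmem e).mp he with h' | h'
              · exact H1 e h'
              · exact H2 e h' hi
          rw [hsplit, hA1, hB1]
          exact hind.measure_inter_preimage_eq_mul _ _ hmA hmB
        have e3 : ∏ i ∈ (D.image F1).erase (F1 e0), house (sc i + 1) (sd F1 j x D i) =
            ∏ i ∈ (D.image F1).erase (F1 e0), house (sc i + 1) (sd F1 j x D' i) := by
          refine Finset.prod_congr rfl fun i hi => ?_
          have hne : i ≠ F1 e0 := Finset.ne_of_mem_erase hi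
          congr 1
          ext h
          simp only [sd, Set.mem_ofPred_eq]
          constructor
          · intro H e he hi
            exact H e ((hmem e).mpr (Or.inr he)) hi
          · intro H e he hi
            rcases (hmem e).mp he with h' | h'
            · exact absurd (hi ▸ hKF e h') hne
            · exact H e h' hi
        rw [e1, e3, mul_assoc]
      rw [key1, key2, hI, hsc e0]

theorem t4a : T4a := by
  intro H0h I E _ sc F1 F2 j hsc h12 hgap
  classical
  have hp : ∀ i : I, IsProbabilityMeasure (house (sc i + 1)) := fun i => H0h.1 _ (Nat.succ_pos _)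
  have hmeas : ∀ F : E → I, Measurable (fun (H : I → ℕ → Bool) (e : E) => H (F e) (j e)) :=
    fun F => measurable_pi_lambda _ fun e =>
      (measurable_pi_apply (j e)).comp (measurable_pi_apply (F e))
  have hfin : ∀ F : E → I, IsProbabilityMeasure ((Measure.infinitePi
      (fun i : I => house (sc i + 1))).map (fun (H : I → ℕ → Bool) (e : E) => H (F e) (j e))) :=
    fun F => Measure.isProbabilityMeasure_map (hmeas F).aemeasurable
  have := hfin F1
  have := hfin F2
  have hpl : IsProjectiveLimit ((Measure.infinitePi
      (fun i : I => house (sc i + 1))).map (fun (H : I → ℕ → Bool) (e : E) => H (F1 e) (j e)))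
      (fun D : Finset E => (((Measure.infinitePi
      (fun i : I => house (sc i + 1))).map (fun (H : I → ℕ → Bool) (e : E) =>
        H (F2 e) (j e))).map D.restrict : Measure (D → Bool))) := by
    intro D
    refine Measure.ext_of_singleton fun y => ?_
    have hr : Measurable (D.restrict : (E → Bool) → (D → Bool)) := Finset.measurable_restrict D
    rw [Measure.map_apply hr (MeasurableSet.singleton y),
      Measure.map_apply hr (MeasurableSet.singleton y),
      Measure.map_apply (hmeas F1) (hr (MeasurableSet.singleton y)),
      Measure.map_apply (hmeas F2) (hr (MeasurableSet.singleton y))]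
    have hev : ∀ F : E → I, (fun (H : I → ℕ → Bool) (e : E) => H (F e) (j e)) ⁻¹'
        (D.restrict ⁻¹' {y}) = ev F j (fun e => if h : e ∈ D then y ⟨e, h⟩ else false) D := by
      intro F
      ext H
      simp only [ev, Set.mem_preimage, Set.mem_singleton_iff, Set.mem_ofPred_eq]
      constructor
      · intro h e he
        have := congrFun h ⟨e, he⟩
        simp only [Finset.restrict] at this
        rw [dif_pos he]
        exact this
      · intro h
        funext e
        have := h e.1 e.2
        rw [dif_pos e.2] at this
        simpa [Finset.restrict] using this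
    rw [hev F1, hev F2]
    exact key H0h sc F1 F2 j hsc h12 hgap _ _ D rfl
  exact hpl.unique (fun D => rfl)

end Pool.Agent.W94.TR
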